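import Mathlib

/-!
# The radius of convergence of every `q`-deformed real number is at least `(3 - √5) / 2`

Proof. Let `ρ = (√5 - 1) / 2` and `r = ρ ^ 2 = 1 - ρ = (3 - √5) / 2`. In the weighted `ℓ¹` algebra with
norm `∑ |a_n| r ^ n` every finite `q`-deformed continued fraction `[[c₁, ..., c_N]]_q` with entries
`≥ 2` lies in the ball of radius `ρ` about `1`: if `z` is in that ball then
`1 - 1 / z = (z - 1) / z` has norm at most `ρ / (1 - ρ) = 1 + ρ`, and
`[c + 1]_q - q ^ c / z = 1 + q ([c]_q - q ^ (c - 1) / z)`, where `r (1 + ρ) = ρ`.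
-/

namespace Pool.Agent.Results.MP_b13893_an.RadiusBound

open PowerSeries Filter Topology

/-- `[n]_q = 1 + q + ... + q ^ (n - 1)`, as a power series. -/
noncomputable def qInt (n : ℕ) : PowerSeries ℤ :=
  ∑ i ∈ Finset.range n, (X : PowerSeries ℤ) ^ i

/-- The value of the finite negative continued fraction `[[c₁, ..., c_N]]`. -/
noncomputable def realCF : List ℕ → ℝ
  | [] => 0
  | [c] => c
  | c :: d :: l => c - 1 / realCF (d :: l)

/-- The `q`-deformed finite continued fraction `[[c₁, ..., c_N]]_q`, as a power series. Here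
`invOfUnit f 1` is the inverse of the power series `f` with constant term `1`. -/
noncomputable def qCF : List ℕ → PowerSeries ℤ
  | [] => 0
  | [c] => qInt c
  | c :: d :: l => qInt c - X ^ (c - 1) * invOfUnit (qCF (d :: l)) 1

/-- The list of the first `N` terms of a sequence. -/
def first (c : ℕ → ℕ) (N : ℕ) : List ℕ := (List.range N).map c

/-- `x = [[c₁, c₂, ...]]` with all `c_j ≥ 2`. -/
def IsExpansion (x : ℝ) (c : ℕ → ℕ) : Prop :=
  (∀ j, 2 ≤ c j) ∧ Tendsto (fun N => realCF (first c (N + 1))) atTop (𝓝 x)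

/-- `φ` is the `q`-adic limit of the `q`-deformed truncations `[[c₁, ..., c_N]]_q`. -/
def IsQLimit (c : ℕ → ℕ) (φ : PowerSeries ℤ) : Prop :=
  ∀ n, ∀ᶠ N in atTop, coeff n (qCF (first c N)) = coeff n φ

/-- The map `f ↦ q⁻¹ (f - 1)` on Laurent series. -/
noncomputable def shift (f : LaurentSeries ℤ) : LaurentSeries ℤ :=
  HahnSeries.single (-1 : ℤ) (1 : ℤ) * (f - 1)

/-- `f` is the `q`-deformed real number `[x]_q`: for some `k` the number `x + k` has the
expansion `[[c₁, c₂, ...]]`, the series `[x + k]_q` is the `q`-adic limit `φ` of the `q`-deformed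
truncations, and `[x]_q` is obtained from it by applying `k` times the rule
`[y - 1]_q = q⁻¹ ([y]_q - 1)`. -/
def IsQReal (x : ℝ) (f : LaurentSeries ℤ) : Prop :=
  ∃ (k : ℕ) (c : ℕ → ℕ) (φ : PowerSeries ℤ), IsExpansion (x + k) c ∧ IsQLimit c φ ∧
    f = shift^[k] (HahnSeries.ofPowerSeries ℤ ℤ φ)

/-- The radius of convergence of a Laurent series with finitely many negative powers. -/
noncomputable def radius (f : LaurentSeries ℤ) : ENNReal :=
  (FormalMultilinearSeries.ofScalars ℂ (fun n : ℕ => ((f.coeff (n : ℤ) : ℤ) : ℂ))).radius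

/-! ### Weighted partial sums -/

/-- Weighted partial sums of the absolute values of the coefficients. -/
noncomputable def P (r : ℝ) (m : ℕ) (f : PowerSeries ℤ) : ℝ :=
  ∑ n ∈ Finset.range m, |((coeff n f : ℤ) : ℝ)| * r ^ n

variable {r : ℝ} (hr : 0 ≤ r) (m : ℕ)

include hr in
lemma P_nonneg (f : PowerSeries ℤ) : 0 ≤ P r m f :=
  Finset.sum_nonneg fun n _ => by positivity

include hr in
lemma P_add (f g : PowerSeries ℤ) : P r m (f + g) ≤ P r m f + P r m g := by
  unfold P
  rw [← Finset.sum_add_distrib]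
  refine Finset.sum_le_sum fun n _ => ?_
  rw [← add_mul, map_add, Int.cast_add]
  exact mul_le_mul_of_nonneg_right (abs_add_le _ _) (by positivity)

lemma P_neg (f : PowerSeries ℤ) : P r m (-f) = P r m f := by
  unfold P
  refine Finset.sum_congr rfl fun n _ => ?_
  rw [map_neg, Int.cast_neg, abs_neg]

include hr in
lemma P_mul (f g : PowerSeries ℤ) : P r m (f * g) ≤ P r m f * P r m g := by
  classical
  unfold P
  set F : ℕ × ℕ → ℝ := fun x => (|((coeff x.1 f : ℤ) : ℝ)| * r ^ x.1) *
    (|((coeff x.2 g : ℤ) : ℝ)| * r ^ x.2) with hF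
  have hF0 : ∀ x, 0 ≤ F x := fun x => by positivity
  have h1 : ∀ n ∈ Finset.range m, |((coeff n (f * g) : ℤ) : ℝ)| * r ^ n ≤
      ∑ x ∈ Finset.HasAntidiagonal.antidiagonal n, F x := by
    intro n _
    rw [PowerSeries.coeff_mul, Int.cast_sum]
    calc _ ≤ (∑ x ∈ Finset.HasAntidiagonal.antidiagonal n, |(((coeff x.1 f * coeff x.2 g : ℤ)) : ℝ)|) * r ^ n :=
          mul_le_mul_of_nonneg_right (Finset.abs_sum_le_sum_abs _ _) (by positivity)
      _ = _ := by
          rw [Finset.sum_mul]
          refine Finset.sum_congr rfl fun x hx => ?_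
          rw [Finset.HasAntidiagonal.mem_antidiagonal] at hx
          rw [hF]
          simp only [Int.cast_mul, abs_mul]
          rw [← hx, pow_add]
          ring
  refine (Finset.sum_le_sum h1).trans ?_
  rw [← Finset.sum_biUnion]
  · rw [Finset.sum_mul_sum, ← Finset.sum_product']
    refine Finset.sum_le_sum_of_subset_of_nonneg ?_ fun x _ _ => hF0 x
    intro x hx
    rw [Finset.mem_biUnion] at hx
    obtain ⟨n, hn, hx⟩ := hx
    rw [Finset.HasAntidiagonal.mem_antidiagonal] at hx
    rw [Finset.mem_range] at hn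
    rw [Finset.mem_product, Finset.mem_range, Finset.mem_range]
    omega
  · intro a _ b _ hab
    rw [Function.onFun, Finset.disjoint_left]
    intro x hxa hxb
    rw [Finset.HasAntidiagonal.mem_antidiagonal] at hxa hxb
    exact hab (hxa.symm.trans hxb)

lemma P_one : P r m 1 ≤ 1 := by
  unfold P
  rcases Nat.eq_zero_or_pos m with h | h
  · subst h; simp
  · rw [Finset.sum_eq_single 0]
    · simp
    · intro b _ hb
      simp [coeff_one, hb]
    · intro h0
      exact absurd (Finset.mem_range.2 h) h0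

include hr in
lemma P_X : P r m X ≤ r := by
  unfold P
  by_cases h : 1 < m
  · rw [Finset.sum_eq_single 1]
    · simp
    · intro b _ hb
      simp [coeff_X, hb]
    · intro h0
      exact absurd (Finset.mem_range.2 h) h0
  · rw [Finset.sum_eq_zero]
    · exact hr
    · intro b hb
      rw [Finset.mem_range] at hb
      have : b ≠ 1 := by omega
      simp [coeff_X, this]

/-! ### The invariant ball -/

lemma qInt_succ (c : ℕ) : qInt (c + 1) = 1 + X * qInt c := by
  unfold qInt
  rw [Finset.sum_range_succ', Finset.mul_sum, pow_zero, add_comm]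
  congr 1
  exact Finset.sum_congr rfl fun i _ => by rw [pow_succ']

lemma qInt_one : qInt 1 = 1 := by simp [qInt]

/-- `ρ = (√5 - 1) / 2`. -/
noncomputable def rho : ℝ := (Real.sqrt 5 - 1) / 2

/-- `R_* = (3 - √5) / 2`. -/
noncomputable def Rs : ℝ := (3 - Real.sqrt 5) / 2

lemma sqrt5_sq : Real.sqrt 5 * Real.sqrt 5 = 5 := Real.mul_self_sqrt (by norm_num)

lemma sqrt5_gt : 2.2 < Real.sqrt 5 := by
  rw [Real.lt_sqrt (by norm_num)]; norm_num

lemma sqrt5_lt : Real.sqrt 5 < 2.3 := by
  rw [Real.sqrt_lt' (by norm_num)]; norm_num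

lemma rho_pos : 0 < rho := by unfold rho; linarith [sqrt5_gt]

lemma rho_lt : rho < 1 := by unfold rho; linarith [sqrt5_lt]

lemma Rs_pos : 0 < Rs := by unfold Rs; linarith [sqrt5_lt]

lemma Rs_eq : Rs = 1 - rho := by unfold Rs rho; ring

lemma rho_sq : rho * rho = 1 - rho := by
  unfold rho
  nlinarith [sqrt5_sq]

/-- The step: passing from `F_c` to `F_{c+1} = 1 + q F_c`. -/
lemma step (f : PowerSeries ℤ) (hf : P Rs m f ≤ 1 + rho) :
    P Rs m (X * f) ≤ rho ∧ P Rs m (1 + X * f) ≤ 1 + rho := by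
  have h0 := Rs_pos.le
  have h1 : P Rs m (X * f) ≤ rho := by
    calc P Rs m (X * f) ≤ P Rs m X * P Rs m f := P_mul h0 m X f
      _ ≤ Rs * (1 + rho) := mul_le_mul (P_X h0 m) hf (P_nonneg h0 m f) h0
      _ = rho := by rw [Rs_eq]; nlinarith [rho_sq]
  exact ⟨h1, (P_add h0 m _ _).trans (add_le_add (P_one m) h1)⟩

/-- If `F_1` has norm `≤ 1 + ρ` and `F_{c+1} = 1 + q F_c`, then `F_c - 1` has norm `≤ ρ` for
`c ≥ 2`. -/
lemma tower (F : ℕ → PowerSeries ℤ) (h1 : P Rs m (F 1) ≤ 1 + rho)
    (hF : ∀ c, 1 ≤ c → F (c + 1) = 1 + X * F c) (c : ℕ) (hc : 2 ≤ c) :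
    P Rs m (F c - 1) ≤ rho := by
  have h : ∀ c, 1 ≤ c → P Rs m (F c) ≤ 1 + rho := by
    intro c hc
    induction c, hc using Nat.le_induction with
    | base => exact h1
    | succ c hc ih =>
      rw [hF c hc]
      exact (step m _ ih).2
  obtain ⟨d, rfl⟩ : ∃ d, c = d + 1 := ⟨c - 1, by omega⟩
  have hd : 1 ≤ d := by omega
  rw [hF d hd, add_sub_cancel_left]
  exact (step m _ (h d hd)).1

lemma const_qInt {c : ℕ} (hc : 1 ≤ c) : constantCoeff (qInt c) = 1 := by
  obtain ⟨d, rfl⟩ : ∃ d, c = d + 1 := ⟨c - 1, by omega⟩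
  rw [qInt_succ]
  simp

lemma const_qCF : ∀ l : List ℕ, l ≠ [] → (∀ c ∈ l, 2 ≤ c) → constantCoeff (qCF l) = 1
  | [], h, _ => absurd rfl h
  | [c], _, h => by
      rw [qCF]
      exact const_qInt (by have := h c (by simp); omega)
  | c :: d :: l, _, h => by
      have hc := h c (by simp)
      rw [qCF, map_sub, map_mul, const_qInt (by omega), map_pow, constantCoeff_X,
        zero_pow (by omega)]
      simp

lemma qCF_mul_inv (l : List ℕ) (h0 : l ≠ []) (h : ∀ c ∈ l, 2 ≤ c) :
    qCF l * invOfUnit (qCF l) 1 = 1 :=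
  mul_invOfUnit _ _ (by rw [const_qCF l h0 h]; rfl)

/-- The main estimate. -/
lemma ball : ∀ l : List ℕ, l ≠ [] → (∀ c ∈ l, 2 ≤ c) → P Rs m (qCF l - 1) ≤ rho
  | [], h, _ => absurd rfl h
  | [c], _, h => by
      rw [qCF]
      refine tower m qInt ?_ (fun c _ => qInt_succ c) c (h c (by simp))
      rw [qInt_one]
      exact (P_one m).trans (by linarith [rho_pos])
  | c :: d :: l, _, h => by
      have h' : ∀ c ∈ d :: l, 2 ≤ c := fun c hc => h c (List.mem_cons_of_mem _ hc)
      have ih := ball (d :: l) (by simp) h'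
      have hz := qCF_mul_inv (d :: l) (by simp) h'
      rw [qCF]
      set z := qCF (d :: l) with hzdef
      set w := invOfUnit z 1 with hw
      have h0 := Rs_pos.le
      refine tower m (fun c => qInt c - X ^ (c - 1) * w) ?_ ?_ c (h c (by simp))
      · have e1 : w = 1 + -((z - 1) * w) := by
          linear_combination hz
        have e2 : P Rs m w ≤ 1 + rho * P Rs m w := by
          calc P Rs m w = P Rs m (1 + -((z - 1) * w)) := by rw [← e1]
            _ ≤ P Rs m 1 + P Rs m (-((z - 1) * w)) := P_add h0 m _ _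
            _ ≤ 1 + P Rs m (z - 1) * P Rs m w := by
                rw [P_neg]
                exact add_le_add (P_one m) (P_mul h0 m _ _)
            _ ≤ 1 + rho * P Rs m w :=
                add_le_add le_rfl (mul_le_mul_of_nonneg_right ih (P_nonneg h0 m w))
        have e3 : qInt 1 - X ^ (1 - 1) * w = (z - 1) * w := by
          rw [qInt_one, Nat.sub_self, pow_zero]
          linear_combination (-1 : PowerSeries ℤ) * hz
        rw [e3]
        have e4 : P Rs m w ≤ 2 + rho := by
          have := rho_sq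
          have h3 : (1 - rho) * P Rs m w ≤ (1 - rho) * (2 + rho) := by nlinarith
          exact le_of_mul_le_mul_left h3 (by linarith [rho_lt])
        calc P Rs m ((z - 1) * w) ≤ P Rs m (z - 1) * P Rs m w := P_mul h0 m _ _
          _ ≤ rho * (2 + rho) := mul_le_mul ih e4 (P_nonneg h0 m w) rho_pos.le
          _ = 1 + rho := by nlinarith [rho_sq]
      · intro c hc
        obtain ⟨e, rfl⟩ : ∃ e, c = e + 1 := ⟨c - 1, by omega⟩
        simp only [Nat.add_sub_cancel]
        rw [qInt_succ (e + 1), pow_succ']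
        ring

/-! ### The `q`-adic limit -/

lemma X_dvd_of_le {a b : ℕ} (h : a ≤ b) (f : PowerSeries ℤ) : (X : PowerSeries ℤ) ^ a ∣ X ^ b * f :=
  (pow_dvd_pow X h).mul_right f

lemma stab : ∀ (l : List ℕ) (d : ℕ), l ≠ [] → (∀ c ∈ l, 2 ≤ c) → 2 ≤ d →
    (X : PowerSeries ℤ) ^ l.length ∣ qCF (l ++ [d]) - qCF l
  | [], _, h, _, _ => absurd rfl h
  | [c], d, _, h, _ => by
      have hc := h c (by simp)
      have e : qCF ([c] ++ [d]) - qCF [c] = X ^ (c - 1) * (-invOfUnit (qCF [d]) 1) := by
        simp only [List.singleton_append, qCF]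
        ring
      rw [e]
      exact X_dvd_of_le (by simp; omega) _
  | c :: e :: l, d, _, h, hd => by
      have hc := h c (by simp)
      have h' : ∀ c ∈ e :: l, 2 ≤ c := fun c hc => h c (List.mem_cons_of_mem _ hc)
      have h'' : ∀ c ∈ e :: (l ++ [d]), 2 ≤ c := by
        intro a ha
        rw [← List.cons_append, List.mem_append] at ha
        rcases ha with ha | ha
        · exact h' a ha
        · rw [List.mem_singleton] at ha
          omega
      have ih := stab (e :: l) d (by simp) h' hd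
      have hz := qCF_mul_inv (e :: l) (by simp) h'
      have hz' := qCF_mul_inv (e :: (l ++ [d])) (by simp) h''
      rw [List.cons_append] at ih
      rw [List.cons_append, List.cons_append, qCF, qCF]
      set z := qCF (e :: l)
      set z' := qCF (e :: (l ++ [d]))
      set w := invOfUnit z 1
      set w' := invOfUnit z' 1
      have e1 : qInt c - X ^ (c - 1) * w' - (qInt c - X ^ (c - 1) * w) =
          X ^ (c - 1) * ((z' - z) * (w * w')) := by
        linear_combination (X ^ (c - 1) * w' : PowerSeries ℤ) * hz -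
          (X ^ (c - 1) * w : PowerSeries ℤ) * hz'
      rw [e1]
      have e2 : (c :: e :: l).length = 1 + (e :: l).length := by
        simp; omega
      rw [e2, pow_add]
      refine mul_dvd_mul ?_ (ih.mul_right _)
      exact pow_dvd_pow X (by omega)

lemma first_length (c : ℕ → ℕ) (N : ℕ) : (first c N).length = N := by simp [first]

lemma first_succ (c : ℕ → ℕ) (N : ℕ) : first c (N + 1) = first c N ++ [c N] := by
  simp [first, List.range_succ]

lemma first_ne_nil (c : ℕ → ℕ) {N : ℕ} (h : 1 ≤ N) : first c N ≠ [] := by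
  intro h0
  have := first_length c N
  rw [h0] at this
  simp at this
  omega

lemma first_mem {c : ℕ → ℕ} (hc : ∀ j, 2 ≤ c j) (N : ℕ) : ∀ a ∈ first c N, 2 ≤ a := by
  intro a ha
  rw [first, List.mem_map] at ha
  obtain ⟨j, _, rfl⟩ := ha
  exact hc j

lemma coeff_stab {c : ℕ → ℕ} (hc : ∀ j, 2 ≤ c j) (n N : ℕ) (h : n + 1 ≤ N) :
    coeff n (qCF (first c N)) = coeff n (qCF (first c (n + 1))) := by
  induction N, h using Nat.le_induction with
  | base => rfl
  | succ N hN ih =>
    rw [← ih]
    have := stab (first c N) (c N) (first_ne_nil c (by omega)) (first_mem hc N) (hc N)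
    rw [first_length, X_pow_dvd_iff] at this
    have h2 := this n (by omega)
    rw [map_sub, sub_eq_zero] at h2
    rw [first_succ, h2]

lemma exists_qLimit {c : ℕ → ℕ} (hc : ∀ j, 2 ≤ c j) : ∃ φ, IsQLimit c φ := by
  refine ⟨PowerSeries.mk fun n => coeff n (qCF (first c (n + 1))), fun n => ?_⟩
  filter_upwards [eventually_ge_atTop (n + 1)] with N hN
  rw [coeff_mk]
  exact coeff_stab hc n N hN

lemma ball_limit {c : ℕ → ℕ} (hc : ∀ j, 2 ≤ c j) {φ : PowerSeries ℤ} (h : IsQLimit c φ) :
    P Rs m (φ - 1) ≤ rho := by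
  have h1 : ∀ᶠ N in atTop, ∀ n ∈ Finset.range m, coeff n (qCF (first c N)) = coeff n φ :=
    (Filter.eventually_all_finset _).2 fun n _ => h n
  obtain ⟨N, h2, h3⟩ := (h1.and (eventually_ge_atTop 1)).exists
  refine le_trans (le_of_eq ?_) (ball m (first c N) (first_ne_nil c h3) (first_mem hc N))
  unfold P
  refine Finset.sum_congr rfl fun n hn => ?_
  rw [map_sub, map_sub, h2 n hn]

lemma P_limit {c : ℕ → ℕ} (hc : ∀ j, 2 ≤ c j) {φ : PowerSeries ℤ} (h : IsQLimit c φ) :
    P Rs m φ ≤ 1 + rho := by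
  calc P Rs m φ = P Rs m (1 + (φ - 1)) := by rw [add_sub_cancel]
    _ ≤ P Rs m 1 + P Rs m (φ - 1) := P_add Rs_pos.le m _ _
    _ ≤ 1 + rho := add_le_add (P_one m) (ball_limit m hc h)

/-! ### Existence of the continued fraction expansion -/

lemma realCF_cons (c : ℕ) {l : List ℕ} (h : l ≠ []) : realCF (c :: l) = c - 1 / realCF l := by
  cases l with
  | nil => exact absurd rfl h
  | cons d l => rw [realCF]

lemma first_succ' (c : ℕ → ℕ) (N : ℕ) : first c (N + 1) = c 0 :: first (fun j => c (j + 1)) N := by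
  simp [first, List.range_succ_eq_map, Function.comp_def]

/-- The Gauss map of the negative continued fraction. -/
noncomputable def T (x : ℝ) : ℝ := 1 / ((⌊x⌋₊ : ℝ) + 1 - x)

/-- The digits of the negative continued fraction. -/
noncomputable def dig (x : ℝ) (j : ℕ) : ℕ := ⌊T^[j] x⌋₊ + 1

lemma T_pos {x : ℝ} : 0 < (⌊x⌋₊ : ℝ) + 1 - x := by
  have := Nat.lt_floor_add_one x
  linarith

lemma T_ge {x : ℝ} (hx : 1 ≤ x) : 1 ≤ T x := by
  have h1 := T_pos (x := x)
  have h2 := Nat.floor_le (zero_le_one.trans hx)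
  rw [T, le_div_iff₀ h1]
  linarith

lemma T_iter_ge {x : ℝ} (hx : 1 ≤ x) (j : ℕ) : 1 ≤ T^[j] x := by
  induction j with
  | zero => exact hx
  | succ j ih => rw [Function.iterate_succ_apply']; exact T_ge ih

lemma dig_ge {x : ℝ} (hx : 1 ≤ x) (j : ℕ) : 2 ≤ dig x j := by
  have : 1 ≤ ⌊T^[j] x⌋₊ := Nat.le_floor (by simpa using T_iter_ge hx j)
  unfold dig
  omega

lemma approx (N : ℕ) : ∀ x : ℝ, 1 ≤ x → x < realCF (first (dig x) (N + 1)) ∧
    realCF (first (dig x) (N + 1)) ≤ x + 1 / (N + 1) := by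
  induction N with
  | zero =>
    intro x hx
    have e : first (dig x) (0 + 1) = [⌊x⌋₊ + 1] := by simp [first, dig]
    rw [e, realCF]
    have h1 := T_pos (x := x)
    have h2 := Nat.floor_le (zero_le_one.trans hx)
    push_cast
    constructor
    · linarith
    · simp; linarith
  | succ N ih =>
    intro x hx
    have e : first (dig x) (N + 1 + 1) = (⌊x⌋₊ + 1) :: first (dig (T x)) (N + 1) := by
      rw [first_succ']
      rfl
    rw [e, realCF_cons _ (first_ne_nil _ (by omega))]
    obtain ⟨h1, h2⟩ := ih (T x) (T_ge hx)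
    have h3 := T_ge hx
    have hp := T_pos (x := x)
    set y := realCF (first (dig (T x)) (N + 1))
    have hx' : x = ((⌊x⌋₊ : ℝ) + 1) - 1 / T x := by
      rw [T, one_div_one_div]
      ring
    set t := T x
    have hy : 0 < y := by linarith
    have ht : 0 < t := by linarith
    push_cast
    constructor
    · have : 1 / y < 1 / t := one_div_lt_one_div_of_lt ht h1
      linarith
    · have hN : (0 : ℝ) < N + 1 := by positivity
      have key : 1 / t - 1 / y ≤ 1 / ((N : ℝ) + 1 + 1) := by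
        have e1 : 1 / t - 1 / y = (y - t) / (t * y) := by
          field_simp
        rw [e1, div_le_div_iff₀ (by positivity) (by positivity)]
        have h4 : (y - t) * (N + 1) ≤ 1 := by
          have : y - t ≤ 1 / ((N : ℝ) + 1) := by linarith
          rwa [le_div_iff₀ hN] at this
        nlinarith [mul_nonneg (sub_nonneg.2 h3) ht.le, mul_nonneg (sub_nonneg.2 h3) (sub_nonneg.2 h1.le)]
      linarith

lemma exists_expansion {x : ℝ} (hx : 1 ≤ x) : ∃ c, IsExpansion x c := by
  refine ⟨dig x, dig_ge hx, ?_⟩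
  have h1 : Tendsto (fun N : ℕ => x + 1 / ((N : ℝ) + 1)) atTop (𝓝 x) := by
    simpa using (tendsto_one_div_add_atTop_nhds_zero_nat (𝕜 := ℝ)).const_add x
  exact tendsto_of_tendsto_of_tendsto_of_le_of_le tendsto_const_nhds h1
    (fun N => (approx N x hx).1.le) (fun N => (approx N x hx).2)

/-! ### The shift and the radius -/

lemma shift_coeff (f : LaurentSeries ℤ) (n : ℤ) (hn : 0 ≤ n) :
    (shift f).coeff n = f.coeff (n + 1) := by
  have h := HahnSeries.coeff_single_mul_add (r := (1 : ℤ)) (x := f - 1) (a := n + 1) (b := (-1 : ℤ))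
  rw [add_neg_cancel_right, one_mul] at h
  rw [shift, h, HahnSeries.coeff_sub, HahnSeries.coeff_one, if_neg (by omega), sub_zero]

lemma shift_iter_coeff (k : ℕ) : ∀ (f : LaurentSeries ℤ) (n : ℤ), 0 ≤ n →
    (shift^[k] f).coeff n = f.coeff (n + k) := by
  induction k with
  | zero => intro f n _; simp
  | succ k ih =>
    intro f n hn
    rw [Function.iterate_succ_apply, ih _ n hn, shift_coeff _ _ (by positivity)]
    push_cast
    congr 1
    ring

lemma coeff_of_isQReal (k : ℕ) (φ : PowerSeries ℤ) (n : ℕ) :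
    (shift^[k] (HahnSeries.ofPowerSeries ℤ ℤ φ)).coeff (n : ℤ) = coeff (n + k) φ := by
  rw [shift_iter_coeff k _ _ (by positivity)]
  have := HahnSeries.ofPowerSeries_apply_coeff (Γ := ℤ) φ (n + k)
  rw [← this]
  simp

/-- For every real number `x` the `q`-deformed real number `[x]_q` exists, and its radius of
convergence is at least `(3 - √5) / 2`; moreover `[x]_q` converges absolutely on the circle
`|q| = (3 - √5) / 2`. -/
theorem result (x : ℝ) : (∃ f, IsQReal x f) ∧ ∀ f, IsQReal x f →
    ENNReal.ofReal ((3 - Real.sqrt 5) / 2) ≤ radius f ∧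
    Summable fun n : ℕ => |((f.coeff (n : ℤ) : ℤ) : ℝ)| * ((3 - Real.sqrt 5) / 2) ^ n := by
  constructor
  · obtain ⟨k, hk⟩ := exists_nat_ge (1 - x)
    obtain ⟨c, hc⟩ := exists_expansion (x := x + k) (by linarith)
    obtain ⟨φ, hφ⟩ := exists_qLimit hc.1
    exact ⟨_, k, c, φ, hc, hφ, rfl⟩
  · rintro f ⟨k, c, φ, hc, hφ, rfl⟩
    have hb := fun m => P_limit m hc.1 hφ
    have hR := Rs_pos
    have hs : Summable fun n : ℕ => |((coeff n φ : ℤ) : ℝ)| * Rs ^ n :=
      summable_of_sum_range_le (fun n => by positivity) hb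
    have hs' : Summable fun n : ℕ =>
        |(((shift^[k] (HahnSeries.ofPowerSeries ℤ ℤ φ)).coeff (n : ℤ) : ℤ) : ℝ)| * Rs ^ n := by
      have h1 := ((summable_nat_add_iff k).2 hs).mul_right ((Rs ^ k)⁻¹)
      refine h1.congr fun n => ?_
      rw [coeff_of_isQReal, pow_add]
      field_simp
    refine ⟨?_, hs'⟩
    obtain ⟨C, hC⟩ : ∃ C, ∀ n : ℕ,
        |(((shift^[k] (HahnSeries.ofPowerSeries ℤ ℤ φ)).coeff (n : ℤ) : ℤ) : ℝ)| * Rs ^ n ≤ C :=
      ⟨_, fun n => hs'.le_tsum n fun i _ => by positivity⟩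
    refine FormalMultilinearSeries.le_radius_of_bound _ C fun n => ?_
    have e : ((Real.toNNReal ((3 - Real.sqrt 5) / 2) : NNReal) : ℝ) = Rs :=
      Real.coe_toNNReal _ Rs_pos.le
    rw [e, FormalMultilinearSeries.ofScalars_norm]
    refine le_trans (le_of_eq ?_) (hC n)
    rw [Complex.norm_intCast]

end Pool.Agent.Results.MP_b13893_an.RadiusBound
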